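import Pool.Agent.H48.SP.AF

/-!
# Module AV: the homology of a punctured vector space below the top degree
-/

open Topology Set
open scoped unitInterval ContinuousMap
open Pool.Agent.H59 Pool.Agent.H64.LB Pool.Agent.H93.SPB Pool.Agent.H48.SP.AF

namespace Pool.Agent.H56.SP.AV

noncomputable section

/-- the upper part has no homology in positive degrees -/
theorem hA (h4 : T_LC0) (n q : ℕ) : Subsingleton (HH ℚ (q + 1) (PUnit × Ap n)) := by
  refine h4 _ _ ?_ (contrA PUnit n) q
  have : (⇑(⟨fun p => (p.1, ptA n), continuous_fst.prodMk continuous_const⟩ :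
      C(PUnit × Ap n, PUnit × Ap n))) = fun _ => (PUnit.unit, ptA n) := by
    funext p
    rfl
  rw [this]
  exact IsLocallyConstant.const _

theorem hB (h4 : T_LC0) (n q : ℕ) : Subsingleton (HH ℚ (q + 1) (PUnit × Bm n)) := by
  refine h4 _ _ ?_ (contrB PUnit n) q
  have : (⇑(⟨fun p => (p.1, ptB n), continuous_fst.prodMk continuous_const⟩ :
      C(PUnit × Bm n, PUnit × Bm n))) = fun _ => (PUnit.unit, ptB n) := by
    funext p
    rfl
  rw [this]
  exact IsLocallyConstant.const _

/-- the augmentation -/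
theorem exists_aug (h3 : T_H0) (Y : Type) [TopologicalSpace Y] :
    ∃ L : HH ℚ 0 Y →ₗ[ℚ] ℚ, ∀ y, L (ptc y) = 1 :=
  h3.2.2.1 Y (fun _ => 1) (IsLocallyConstant.const 1)

theorem joined_AA (n : ℕ) (hn : 1 ≤ n) (x y : PUnit.{1} × AA n) : Joined x y := by
  have h1 : IsPathConnected ({(0 : (Fin n → ℝ) × ℝ)}ᶜ : Set ((Fin n → ℝ) × ℝ)) := by
    apply isPathConnected_compl_singleton_of_one_lt_rank
    have h2 : Module.rank ℝ ((Fin n → ℝ) × ℝ) = ((n + 1 : ℕ) : Cardinal) := by
      rw [rank_prod', rank_fin_fun, Module.rank_self]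
      push_cast
      rfl
    rw [h2]
    exact_mod_cast (by omega : 1 < n + 1)
  have h3 : PathConnectedSpace (AA n) := by
    have := isPathConnected_iff_pathConnectedSpace.1 h1
    exact this
  exact PathConnectedSpace.joined x y

/-- the main vanishing statement -/
theorem vanish (h1 : T_MVP) (h2 : T_HI) (h3 : T_H0) (h4 : T_LC0) : ∀ n q : ℕ, 1 ≤ q → q < n →
    Subsingleton (HH ℚ q (PUnit.{1} × AA n)) := by
  intro n
  induction n with
  | zero => intro q _ hq; omega
  | succ n ih =>
    intro q hq1 hqn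
    obtain ⟨q', rfl⟩ : ∃ q', q = q' + 1 := ⟨q - 1, by omega⟩
    obtain ⟨D, hD1, -, hD3, -, -⟩ := h1 PUnit (AA (n + 1)) (Ap (n + 1)) (Bm (n + 1))
      (isOpen_Ap _) (isOpen_Bm _) (Ap_union_Bm _)
    have ha := hA h4 (n + 1) q'
    have hb := hB h4 (n + 1) q'
    refine subsingleton_of_forall_eq 0 fun x => ?_
    have hD0 : D q' x = 0 := by
      rcases Nat.eq_zero_or_pos q' with h0 | h0
      · subst h0
        obtain ⟨L, hL⟩ := exists_aug h3 (PUnit.{1} × AA n)
        obtain ⟨L', hL'⟩ := exists_aug h3 (PUnit.{1} × Ap (n + 1))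
        have hLL : L ∘ₗ HH.map ℚ 0 (r1 PUnit n) =
            L' ∘ₗ HH.map ℚ 0 (zm PUnit (inc (inter_subset_left :
              Ap (n + 1) ∩ Bm (n + 1) ⊆ Ap (n + 1)))) := by
          apply LinearMap.ext_on_range (h3.1 (PUnit.{1} × ↥(Ap (n + 1) ∩ Bm (n + 1))))
          intro y
          rw [LinearMap.comp_apply, LinearMap.comp_apply, h3.2.2.2, h3.2.2.2, hL, hL']
        have hz := (hD3 0 x).1
        have h5 : L (HH.map ℚ 0 (r1 PUnit n) (D 0 x)) = 0 := by
          have := LinearMap.congr_fun hLL (D 0 x)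
          rw [LinearMap.comp_apply, LinearMap.comp_apply, hz, map_zero] at this
          exact this
        have hn : 1 ≤ n := by omega
        let y0 : PUnit.{1} × AA n := (PUnit.unit, ⟨(0, 1), fun h => one_ne_zero
          (congrArg Prod.snd h)⟩)
        have h6 : ∀ z : HH ℚ 0 (PUnit.{1} × AA n), ∃ r : ℚ, z = r • ptc y0 := by
          intro z
          have hz : z ∈ Submodule.span ℚ (range (ptc : PUnit.{1} × AA n → HH ℚ 0 _)) := by
            rw [h3.1]; trivial
          have h7 : range (ptc : PUnit.{1} × AA n → HH ℚ 0 _) = {ptc y0} := by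
            ext w
            constructor
            · rintro ⟨y, rfl⟩
              exact h3.2.1 _ y y0 (joined_AA n hn y y0)
            · rintro rfl
              exact ⟨y0, rfl⟩
          rw [h7, Submodule.mem_span_singleton] at hz
          obtain ⟨r, hr⟩ := hz
          exact ⟨r, hr.symm⟩
        obtain ⟨r, hr⟩ := h6 (HH.map ℚ 0 (r1 PUnit n) (D 0 x))
        rw [hr, map_smul, hL, smul_eq_mul, mul_one] at h5
        rw [h5, zero_smul] at hr
        exact injR h2 PUnit n 0 (by rw [hr, map_zero])
      · have := ih q' h0 (by omega)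
        have hs := (injR h2 PUnit n q').subsingleton
        exact Subsingleton.elim _ _
    obtain ⟨y, z, hyz⟩ := hD1 q' x hD0
    rw [hyz, Subsingleton.elim y 0, Subsingleton.elim z 0, map_zero, map_zero, add_zero]

theorem av (h1 : T_MVP) (h2 : T_HI) (h3 : T_H0) (h4 : T_LC0) : T_AV := by
  intro E _ _ _ q hq hqm
  obtain ⟨n, hn⟩ : ∃ n, Module.finrank ℝ E = n + 1 := ⟨Module.finrank ℝ E - 1, by omega⟩
  have hv := vanish h1 h2 h3 h4 n q hq (by omega)
  have e : E ≃L[ℝ] ((Fin n → ℝ) × ℝ) := ContinuousLinearEquiv.ofFinrankEq (by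
    rw [hn, Module.finrank_prod, Module.finrank_fin_fun, Module.finrank_self])
  let k : {v : E // v ≠ 0} ≃ₜ PUnit.{1} × AA n :=
    { toFun := fun v => (PUnit.unit, ⟨e v.1, fun h => v.2 (by
        rw [← map_zero e] at h; exact e.injective h)⟩)
      invFun := fun w => ⟨e.symm w.2.1, fun h => w.2.2 (by
        rw [← map_zero e.symm] at h; exact e.symm.injective h)⟩
      left_inv := fun v => Subtype.ext (e.symm_apply_apply _)
      right_inv := fun w => Prod.ext rfl (Subtype.ext (e.apply_symm_apply _))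
      continuous_toFun := continuous_const.prodMk
        (Continuous.subtype_mk (e.continuous.comp continuous_subtype_val) _)
      continuous_invFun := Continuous.subtype_mk
        (e.symm.continuous.comp (continuous_subtype_val.comp continuous_snd)) _ }
  have hinj : Function.Injective (HH.map ℚ q (k : C({v : E // v ≠ 0}, PUnit.{1} × AA n))) := by
    refine inj_of_homotopic h2 _ (k.symm : C(PUnit.{1} × AA n, {v : E // v ≠ 0})) ?_ q
    have : (k.symm : C(PUnit.{1} × AA n, {v : E // v ≠ 0})).comp
        (k : C({v : E // v ≠ 0}, PUnit.{1} × AA n)) = ContinuousMap.id _ := by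
      ext x
      exact congrArg Subtype.val (k.symm_apply_apply x)
    rw [this]
  exact hinj.subsingleton

end

end Pool.Agent.H56.SP.AV
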